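import Pool.Agent.Lib.MP_ca0971_gt.OT.GpDense

set_option autoImplicit false

namespace Pool.Agent.Lib.MP_ca0971_gt.OT

open Filter Topology

/-- General position without vertical pairs is dense: one more polynomial condition for each pair
(same proof as gp_dense), or a small rotation of the plane after gp_dense. -/
theorem gp_dense2 {W : Type} [Fintype W] [DecidableEq W] (F0 : W → E) :
    ∃ᶠ F in 𝓝 F0, GP F ∧ ∀ a b : W, a ≠ b → (F a).1.re ≠ (F b).1.re := by
  have hR : ∀ q : {q : W × W // q.1 ≠ q.2},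
      IsOpen {p : W → E | (p q.1.1).1.re ≠ (p q.1.2).1.re} ∧
        Dense {p : W → E | (p q.1.1).1.re ≠ (p q.1.2).1.re} := by
    rintro ⟨⟨a, b⟩, hab⟩
    simp only at hab
    refine ⟨isOpen_ne_fun (by fun_prop) (by fun_prop), ?_⟩
    have h := gp_dense_ne (fun p : W → E => (p a).1.re - (p b).1.re) ?_
      (fun w => if w = a then ((1 : ℂ), (0 : ℝ)) else 0) ?_
    · refine h.mono fun p hp => ?_
      exact fun h0 => hp (by simp only [h0, sub_self])
    · intro x y
      simp only [Pi.add_apply, Pi.smul_apply, Pi.sub_apply, Prod.fst_add, Prod.smul_fst,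
        Prod.fst_sub, Complex.sub_re, Complex.sub_im, Complex.add_re,
        Complex.real_smul, Complex.mul_re, Complex.ofReal_re, Complex.ofReal_im]
      intro t _
      fun_prop
    · simp [Ne.symm hab]
  have hD : Dense {p : W → E | GP p} := fun F1 => mem_closure_iff_frequently.2 (gp_dense F1)
  have h1 : Dense ((⋂ q : {q : W × W // q.1 ≠ q.2}, {p : W → E | (p q.1.1).1.re ≠ (p q.1.2).1.re}) ∩
      {p : W → E | GP p}) :=
    (dense_iInter_of_isOpen (fun q => (hR q).1) fun q => (hR q).2).inter_of_isOpen_left hD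
      (isOpen_iInter_of_finite fun q => (hR q).1)
  refine (mem_closure_iff_frequently.1 (h1 F0)).mono ?_
  rintro p ⟨hp1, hp2⟩
  refine ⟨hp2, fun a b hab => ?_⟩
  exact Set.mem_iInter.1 hp1 ⟨(a, b), hab⟩

end Pool.Agent.Lib.MP_ca0971_gt.OT
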