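import Pool.Agent.Lib.MP_ca0971_gt.OT.PlMain
import Pool.Agent.Lib.MP_ca0971_gt.OT.GpDense2
import Pool.Agent.Lib.MP_ca0971_gt.OT.Sm.Main

set_option autoImplicit false

namespace Pool.Agent.Lib.MP_ca0971_gt.OT

open Filter Topology

/-- Bennequin: the standard contact R^3 contains no overtwisted disc. -/
theorem noOT (f : ℂ → ℂ × ℝ) : ¬ OTd f := by
  intro hf
  obtain ⟨W, hW, hW', F0, l, h3, hev⟩ := sm_main f hf
  obtain ⟨F, ⟨hGP, hv⟩, hF, hch⟩ := ((gp_dense2 F0).and_eventually hev).exists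
  exact pl_main F l h3 hGP hv hF hch

end Pool.Agent.Lib.MP_ca0971_gt.OT
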