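import Pool.Agent.Lib.MP_ca0971_gt.OT.Defs

/-!
# Project OT: the interfaces between the parts (helper66)

* PL part: `pl_main` (file `PlMain.lean`): no generic family `F` of points with a chain and a front.
* Smooth part: `sm_main` (file `Sm/Main.lean`): an overtwisted disc of the standard R^3 gives such data
  for all `F` in a neighbourhood of some `F0`.
* `gp_dense` (file `GpDense.lean`): general position is dense.
* `noOT` (file `NoOT.lean`): the standard R^3 contains no overtwisted disc.
* `Mf/`: the manifold part, uses only `noOT`.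
-/

set_option autoImplicit false

namespace Pool.Agent.Lib.MP_ca0971_gt.OT

open Finset Set Metric

/-- Slope `dZ/dX` of the edge `i` in the projection. -/
noncomputable def slo {I : Type} (σ : Equiv.Perm I) (v : I → E) (i : I) : ℝ :=
  (dd σ v i).im / (dd σ v i).re

/-- Slope `dh/dX` of the edge `i`. -/
noncomputable def hsl {I : Type} (σ : Equiv.Perm I) (v : I → E) (i : I) : ℝ :=
  dh σ v i / (dd σ v i).re

/-- The polygon looks like a front of a Legendrian curve of `dZ - Y dX`, `h = - Y`: no vertical
edges, at every crossing the over edge has the smaller slope, and next to the `X`-extrema the edge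
with the smaller slope is the higher one. -/
structure Frt {I : Type} (σ : Equiv.Perm I) (v : I → E) : Prop where
  nv : ∀ i, (dd σ v i).re ≠ 0
  ord : ∀ i j, Crs σ v i j → ht σ v j i < ht σ v i j → slo σ v i < slo σ v j
  cmin : ∀ i, (dd σ v i).re < 0 → 0 < (dd σ v (σ i)).re →
    (slo σ v i - slo σ v (σ i)) * (hsl σ v i - hsl σ v (σ i)) < 0
  cmax : ∀ i, 0 < (dd σ v i).re → (dd σ v (σ i)).re < 0 →
    0 < (slo σ v i - slo σ v (σ i)) * (hsl σ v i - hsl σ v (σ i))

/-- `Frt` for a closed polygon given by a list of points. -/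
def FrtL (l : List E) : Prop := Frt (finRotate l.length) (fun i => l.get i)

/-- The closed polygon of a list of points. -/
def polyL (l : List E) : Set E := {x | ∃ e ∈ l.zip (l.rotate 1), x ∈ segment ℝ e.1 e.2}

/-- Translation by `τ` in the direction of the `Z`-axis. -/
def shf (τ : ℝ) (Q : Set E) : Set E := (fun x : E => (x.1 + (τ : ℂ) * Complex.I, x.2)) '' Q

/-- The standard contact form `dw + X dY - Y dX` of `R^3 = {(X + i Y, w)}` at the point `p`, on the
vector `u`. -/
def stdB (p u : ℂ × ℝ) : ℝ := u.2 + dt p.1 u.1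

/-- `f` (restricted to the closed unit disc) is an overtwisted disc of the standard contact `R^3`:
an embedded disc with Legendrian boundary which is either tangent to the contact planes at all points
of the boundary, or transverse to them at all points of the boundary. -/
structure OTd (f : ℂ → ℂ × ℝ) : Prop where
  smooth : ∃ U : Set ℂ, IsOpen U ∧ closedBall (0 : ℂ) 1 ⊆ U ∧ ContDiffOn ℝ ((⊤ : ℕ∞) : WithTop ℕ∞) f U
  inj : InjOn f (closedBall (0 : ℂ) 1)
  imm : ∀ p ∈ closedBall (0 : ℂ) 1, Function.Injective (fderiv ℝ f p)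
  bd : (∀ p ∈ sphere (0 : ℂ) 1, ∀ u, stdB (f p) (fderiv ℝ f p u) = 0) ∨
    (∀ p ∈ sphere (0 : ℂ) 1, stdB (f p) (fderiv ℝ f p (Complex.I * p)) = 0 ∧
      ∃ u, stdB (f p) (fderiv ℝ f p u) ≠ 0)

end Pool.Agent.Lib.MP_ca0971_gt.OT
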