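import Pool.Agent.Lib.MP_ca0971_gt.OT.Defs

/-!
# Project OT: angles (full turns)

Everything follows from `turn_add` (additivity modulo 1) and `turn_sign` (the sign of the planar
determinant) by linear arithmetic.
-/

set_option autoImplicit false

namespace Pool.Agent.Lib.MP_ca0971_gt.OT

open Filter Topology

/-- Sign as a real number `1` or `-1`. -/
noncomputable def sg1 (x : ℝ) : ℝ := if 0 < x then 1 else -1

private theorem ang_pi2 : (0 : ℝ) < 2 * Real.pi := by positivity

theorem turn_mem (z : ℂ) : -(1 / 2) < turn z ∧ turn z ≤ 1 / 2 := by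
  have h1 := Complex.neg_pi_lt_arg z
  have h2 := Complex.arg_le_pi z
  have hp := ang_pi2
  unfold turn
  constructor
  · rw [lt_div_iff₀ hp]
    linarith
  · rw [div_le_iff₀ hp]
    linarith

theorem turn_lt {z : ℂ} (hz : z ∈ Complex.slitPlane) : turn z < 1 / 2 := by
  have h1 := (Complex.mem_slitPlane_iff_arg.1 hz).1
  have h2 : Complex.arg z < Real.pi := lt_of_le_of_ne (Complex.arg_le_pi z) h1
  unfold turn
  rw [div_lt_iff₀ ang_pi2]
  linarith

theorem turn_add {x y z : ℂ} (hx : x ≠ 0) (hy : y ≠ 0) (hz : z ≠ 0) :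
    ∃ n : ℤ, turn (z / x) = turn (y / x) + turn (z / y) + n := by
  have h1 : z / x = (y / x) * (z / y) := by
    field_simp
  have h2 := Complex.arg_mul_coe_angle (x := y / x) (y := z / y) (div_ne_zero hy hx)
    (div_ne_zero hz hy)
  rw [← h1, ← Real.Angle.coe_add] at h2
  obtain ⟨k, hk⟩ := Real.Angle.angle_eq_iff_two_pi_dvd_sub.1 h2
  refine ⟨k, ?_⟩
  have hp := ang_pi2
  unfold turn
  have h3 : Complex.arg (z / x) = Complex.arg (y / x) + Complex.arg (z / y) + 2 * Real.pi * k := by
    linarith
  rw [h3]
  field_simp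

private theorem ang_dt (x z : ℂ) (hx : x ≠ 0) : dt x z = Complex.normSq x * (z / x).im := by
  have h1 : Complex.normSq x ≠ 0 := by
    simpa using hx
  rw [Complex.div_im]
  unfold dt
  field_simp

theorem turn_sign {x z : ℂ} (hx : x ≠ 0) (hz : z ≠ 0) :
    (0 < dt x z ↔ 0 < turn (z / x) ∧ turn (z / x) < 1 / 2) ∧ (dt x z < 0 ↔ turn (z / x) < 0) := by
  have hn : 0 < Complex.normSq x := Complex.normSq_pos.2 hx
  have hp := ang_pi2
  rw [ang_dt x z hx]
  have hw : z / x ≠ 0 := div_ne_zero hz hx
  generalize z / x = w at hw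
  constructor
  · rw [mul_pos_iff_of_pos_left hn]
    unfold turn
    rw [lt_div_iff₀ hp, div_lt_iff₀ hp, zero_mul]
    have e1 : (1 : ℝ) / 2 * (2 * Real.pi) = Real.pi := by ring
    rw [e1]
    constructor
    · intro h
      constructor
      · refine lt_of_le_of_ne (Complex.arg_nonneg_iff.2 h.le) ?_
        intro h0
        have := (Complex.arg_eq_zero_iff.1 h0.symm).2
        linarith
      · refine lt_of_le_of_ne (Complex.arg_le_pi w) ?_
        intro h0
        have := (Complex.arg_eq_pi_iff.1 h0).2
        linarith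
    · rintro ⟨h1, h2⟩
      have h3 := Complex.arg_nonneg_iff.1 h1.le
      refine lt_of_le_of_ne h3 ?_
      intro h0
      rcases le_or_gt 0 w.re with h4 | h4
      · have := Complex.arg_eq_zero_iff.2 ⟨h4, h0.symm⟩
        linarith
      · have := Complex.arg_eq_pi_iff.2 ⟨h4, h0.symm⟩
        linarith
  · have hmn : Complex.normSq x * w.im < 0 ↔ w.im < 0 := by
      constructor
      · intro h
        by_contra hc
        have := mul_nonneg hn.le (not_lt.1 hc)
        linarith
      · exact fun h => mul_neg_of_pos_of_neg hn h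
    rw [hmn]
    unfold turn
    rw [div_lt_iff₀ hp, zero_mul]
    exact Complex.arg_neg_iff.symm

private theorem ang_pos {x z : ℂ} (h : 0 < dt x z) : 0 < turn (z / x) ∧ turn (z / x) < 1 / 2 := by
  have hx : x ≠ 0 := by
    rintro rfl
    simp [dt] at h
  have hz : z ≠ 0 := by
    rintro rfl
    simp [dt] at h
  exact (turn_sign hx hz).1.1 h

private theorem ang_neg {x z : ℂ} (h : dt x z < 0) : -(1 / 2) < turn (z / x) ∧ turn (z / x) < 0 := by
  have hx : x ≠ 0 := by
    rintro rfl
    simp [dt] at h
  have hz : z ≠ 0 := by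
    rintro rfl
    simp [dt] at h
  exact ⟨(turn_mem _).1, (turn_sign hx hz).2.1 h⟩

private theorem ang_nonneg {x z : ℂ} (hx : x ≠ 0) (hz : z ≠ 0) (h : 0 ≤ dt x z) :
    0 ≤ turn (z / x) := by
  by_contra hc
  have := (turn_sign hx hz).2.2 (not_le.1 hc)
  linarith

private theorem ang_ne {x z : ℂ} (h : dt x z ≠ 0) : x ≠ 0 ∧ z ≠ 0 := by
  constructor
  · rintro rfl
    simp [dt] at h
  · rintro rfl
    simp [dt] at h

private theorem ang_int0 {n : ℤ} (h1 : (-1 : ℝ) < n) (h2 : (n : ℝ) < 1) : (n : ℝ) = 0 := by
  have h3 : (-1 : ℤ) < n := by exact_mod_cast h1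
  have h4 : n < 1 := by exact_mod_cast h2
  have : n = 0 := by omega
  rw [this]
  norm_num

private theorem ang_int1 {n : ℤ} (h1 : (0 : ℝ) < n) (h2 : (n : ℝ) < 2) : (n : ℝ) = 1 := by
  have h3 : (0 : ℤ) < n := by exact_mod_cast h1
  have h4 : n < 2 := by exact_mod_cast h2
  have : n = 1 := by omega
  rw [this]
  norm_num

private theorem ang_intm {n : ℤ} (h1 : (-2 : ℝ) < n) (h2 : (n : ℝ) < 0) : (n : ℝ) = -1 := by
  have h3 : (-2 : ℤ) < n := by exact_mod_cast h1
  have h4 : n < 0 := by exact_mod_cast h2
  have : n = -1 := by omega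
  rw [this]
  norm_num

theorem turn_neg {x z : ℂ} (h : dt x z ≠ 0) : turn (x / z) = - turn (z / x) := by
  obtain ⟨hx, hz⟩ := ang_ne h
  have h1 : x / z = (z / x)⁻¹ := by rw [inv_div]
  have h2 : Complex.arg (z / x) ≠ Real.pi := by
    intro h3
    have h4 := (Complex.arg_eq_pi_iff.1 h3).2
    rw [ang_dt x z hx, h4] at h
    simp at h
  unfold turn
  rw [h1, Complex.arg_inv, if_neg h2]
  ring

/-- `x` and `y` on the same side of `z`. -/
theorem turn_same {x y z : ℂ} (h : 0 < dt x z * dt y z) :
    turn (z / y) = turn (z / x) - turn (y / x) := by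
  have hxz : dt x z ≠ 0 := by
    intro h0
    rw [h0] at h
    simp at h
  have hyz : dt y z ≠ 0 := by
    intro h0
    rw [h0] at h
    simp at h
  obtain ⟨hx, hz⟩ := ang_ne hxz
  obtain ⟨hy, -⟩ := ang_ne hyz
  obtain ⟨n, hn⟩ := turn_add hx hy hz
  have hm := turn_mem (y / x)
  have hn0 : (n : ℝ) = 0 := by
    rcases lt_or_gt_of_ne hxz with h1 | h1
    · have h2 : dt y z < 0 := by
        by_contra hc
        have h3 : 0 < dt y z := lt_of_le_of_ne (not_lt.1 hc) hyz.symm
        have := mul_neg_of_neg_of_pos h1 h3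
        linarith
      have h3 := ang_neg h1
      have h4 := ang_neg h2
      apply ang_int0 <;> linarith
    · have h2 : 0 < dt y z := by
        by_contra hc
        have h3 : dt y z < 0 := lt_of_le_of_ne (not_lt.1 hc) hyz
        have := mul_neg_of_pos_of_neg h1 h3
        linarith
      have h3 := ang_pos h1
      have h4 := ang_pos h2
      apply ang_int0 <;> linarith
  linarith

/-- `x` and `y` on different sides of `z`. -/
theorem turn_opp {x y z : ℂ} (h : dt x z * dt y z < 0) (hxy : dt x y ≠ 0) :
    turn (z / y) = turn (z / x) - turn (y / x) -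
      (if dt x z * dt x y < 0 then sg1 (dt x z) else 0) := by
  have hxz : dt x z ≠ 0 := by
    intro h0
    rw [h0] at h
    simp at h
  have hyz : dt y z ≠ 0 := by
    intro h0
    rw [h0] at h
    simp at h
  obtain ⟨hx, hz⟩ := ang_ne hxz
  obtain ⟨hy, -⟩ := ang_ne hyz
  obtain ⟨n, hn⟩ := turn_add hx hy hz
  have key : (n : ℝ) = if dt x z * dt x y < 0 then sg1 (dt x z) else 0 := by
    rcases lt_or_gt_of_ne hxz with h1 | h1
    · have h2 : 0 < dt y z := by
        by_contra hc
        have h3 : dt y z < 0 := lt_of_le_of_ne (not_lt.1 hc) hyz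
        have := mul_pos_of_neg_of_neg h1 h3
        linarith
      have h3 := ang_neg h1
      have h4 := ang_pos h2
      rcases lt_or_gt_of_ne hxy with h5 | h5
      · have h6 := ang_neg h5
        rw [if_neg (not_lt.2 (mul_pos_of_neg_of_neg h1 h5).le)]
        apply ang_int0 <;> linarith
      · have h6 := ang_pos h5
        rw [if_pos (mul_neg_of_neg_of_pos h1 h5)]
        unfold sg1
        rw [if_neg (not_lt.2 h1.le)]
        apply ang_intm <;> linarith
    · have h2 : dt y z < 0 := by
        by_contra hc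
        have h3 : 0 < dt y z := lt_of_le_of_ne (not_lt.1 hc) hyz.symm
        have := mul_pos h1 h3
        linarith
      have h3 := ang_pos h1
      have h4 := ang_neg h2
      rcases lt_or_gt_of_ne hxy with h5 | h5
      · have h6 := ang_neg h5
        rw [if_pos (mul_neg_of_pos_of_neg h1 h5)]
        unfold sg1
        rw [if_pos h1]
        apply ang_int1 <;> linarith
      · have h6 := ang_pos h5
        rw [if_neg (not_lt.2 (mul_pos h1 h5).le)]
        apply ang_int0 <;> linarith
  rw [← key]
  linarith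

/-- Three directions in general position. -/
theorem turn_three {x y z : ℂ} (hxy : dt x y ≠ 0) (hxz : dt x z ≠ 0) (hyz : dt y z ≠ 0) :
    turn (z / x) = turn (y / x) + turn (z / y) +
      (if sg1 (dt x y) = 1 ∧ sg1 (dt y z) = 1 ∧ sg1 (dt x z) = -1 then -1
        else if sg1 (dt x y) = -1 ∧ sg1 (dt y z) = -1 ∧ sg1 (dt x z) = 1 then 1 else 0) := by
  obtain ⟨hx, hz⟩ := ang_ne hxz
  obtain ⟨hy, -⟩ := ang_ne hyz
  obtain ⟨n, hn⟩ := turn_add hx hy hz
  rw [hn]
  congr 1
  have hne1 : (-1 : ℝ) ≠ 1 := by norm_num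
  have hne2 : (1 : ℝ) ≠ -1 := by norm_num
  have sp : ∀ {a : ℝ}, 0 < a → sg1 a = 1 := fun h => by
    unfold sg1
    rw [if_pos h]
  have sn : ∀ {a : ℝ}, a < 0 → sg1 a = -1 := fun h => by
    unfold sg1
    rw [if_neg (not_lt.2 h.le)]
  rcases lt_or_gt_of_ne hxy with a | a <;> rcases lt_or_gt_of_ne hyz with b | b <;>
    rcases lt_or_gt_of_ne hxz with c | c
  · have a' := ang_neg a
    have b' := ang_neg b
    have c' := ang_neg c
    rw [sn a, sn b, sn c]
    simp only [hne1, hne2, and_true, and_false, false_and, if_false]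
    apply ang_int0 <;> linarith
  · have a' := ang_neg a
    have b' := ang_neg b
    have c' := ang_pos c
    rw [sn a, sn b, sp c]
    simp only [hne1, hne2, and_true, and_false, if_false, if_true]
    apply ang_int1 <;> linarith
  · have a' := ang_neg a
    have b' := ang_pos b
    have c' := ang_neg c
    rw [sn a, sp b, sn c]
    simp only [hne1, hne2, and_true, and_false, false_and, if_false]
    apply ang_int0 <;> linarith
  · have a' := ang_neg a
    have b' := ang_pos b
    have c' := ang_pos c
    rw [sn a, sp b, sp c]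
    simp only [hne1, hne2, and_true, and_false, false_and, if_false]
    apply ang_int0 <;> linarith
  · have a' := ang_pos a
    have b' := ang_neg b
    have c' := ang_neg c
    rw [sp a, sn b, sn c]
    simp only [hne1, hne2, and_true, and_false, false_and, if_false]
    apply ang_int0 <;> linarith
  · have a' := ang_pos a
    have b' := ang_neg b
    have c' := ang_pos c
    rw [sp a, sn b, sp c]
    simp only [hne1, hne2, and_true, and_false, false_and, if_false]
    apply ang_int0 <;> linarith
  · have a' := ang_pos a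
    have b' := ang_pos b
    have c' := ang_neg c
    rw [sp a, sp b, sn c]
    simp only [and_self, if_true]
    apply ang_intm <;> linarith
  · have a' := ang_pos a
    have b' := ang_pos b
    have c' := ang_pos c
    rw [sp a, sp b, sp c]
    simp only [hne1, hne2, and_true, and_false, false_and, if_false]
    apply ang_int0 <;> linarith

private theorem ang_cont {w : ℂ} (hw : w ∈ Complex.slitPlane) : ContinuousAt turn w := by
  have h1 := Complex.continuousAt_arg hw
  have h2 : turn = fun z => Complex.arg z / (2 * Real.pi) := rfl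
  rw [h2]
  exact h1.div_const _

/-- Small changes of the directions are gauge transformations. -/
theorem turn_gauge {x y : ℂ} (h : y / x ∈ Complex.slitPlane) :
    ∀ᶠ p : ℂ × ℂ in 𝓝 (x, y), turn (p.2 / p.1) = turn (y / x) + turn (p.2 / y) - turn (p.1 / x) := by
  have hyx : y / x ≠ 0 := Complex.slitPlane_ne_zero h
  have hx : x ≠ 0 := by
    rintro rfl
    simp at hyx
  have hy : y ≠ 0 := by
    rintro rfl
    simp at hyx
  have one : (1 : ℂ) ∈ Complex.slitPlane := Complex.one_mem_slitPlane
  have c1 : ContinuousAt (fun p : ℂ × ℂ => turn (p.2 / p.1)) (x, y) := by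
    have : ContinuousAt (fun p : ℂ × ℂ => p.2 / p.1) (x, y) :=
      continuousAt_snd.div continuousAt_fst hx
    exact ContinuousAt.comp (g := turn) (ang_cont (by simpa using h)) this
  have c2 : ContinuousAt (fun p : ℂ × ℂ => turn (p.2 / y)) (x, y) := by
    have : ContinuousAt (fun p : ℂ × ℂ => p.2 / y) (x, y) := continuousAt_snd.div_const _
    refine ContinuousAt.comp (g := turn) (ang_cont ?_) this
    simpa [div_self hy] using one
  have c3 : ContinuousAt (fun p : ℂ × ℂ => turn (p.1 / x)) (x, y) := by
    have : ContinuousAt (fun p : ℂ × ℂ => p.1 / x) (x, y) := continuousAt_fst.div_const _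
    refine ContinuousAt.comp (g := turn) (ang_cont ?_) this
    simpa [div_self hx] using one
  have c4 : ContinuousAt (fun p : ℂ × ℂ => turn (p.2 / p.1) - turn (y / x) - turn (p.2 / y)
      + turn (p.1 / x)) (x, y) := ((c1.sub continuousAt_const).sub c2).add c3
  have t1 : turn (1 : ℂ) = 0 := by simp [turn]
  have e4 : turn ((x, y).2 / (x, y).1) - turn (y / x) - turn ((x, y).2 / y)
      + turn ((x, y).1 / x) = 0 := by
    simp [div_self hx, div_self hy, t1]
  have c5 : Tendsto (fun p : ℂ × ℂ => turn (p.2 / p.1) - turn (y / x) - turn (p.2 / y)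
      + turn (p.1 / x)) (𝓝 (x, y)) (𝓝 0) := by
    have := c4.tendsto
    rw [e4] at this
    exact this
  have c6 := c5.eventually (Ioo_mem_nhds (show (-1 : ℝ) < 0 by norm_num)
    (show (0 : ℝ) < 1 by norm_num))
  have c7 : ∀ᶠ p : ℂ × ℂ in 𝓝 (x, y), p.1 ≠ 0 := by
    have : ContinuousAt (fun p : ℂ × ℂ => p.1) (x, y) := continuousAt_fst
    exact this.eventually_ne hx
  have c8 : ∀ᶠ p : ℂ × ℂ in 𝓝 (x, y), p.2 ≠ 0 := by
    have : ContinuousAt (fun p : ℂ × ℂ => p.2) (x, y) := continuousAt_snd
    exact this.eventually_ne hy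
  filter_upwards [c6, c7, c8] with p h6 h7 h8
  obtain ⟨n1, hn1⟩ := turn_add (x := x) (y := y) (z := p.2) hx hy h8
  obtain ⟨n2, hn2⟩ := turn_add (x := x) (y := p.1) (z := p.2) hx h7 h8
  have e : ((n1 - n2 : ℤ) : ℝ) = turn (p.2 / p.1) - turn (y / x) - turn (p.2 / y)
      + turn (p.1 / x) := by
    push_cast
    linarith
  have h0 := ang_int0 (n := n1 - n2) (by rw [e]; exact h6.1) (by rw [e]; exact h6.2)
  rw [e] at h0
  linarith

private theorem ang_dt_add (a b c : ℂ) : dt a (b + c) = dt a b + dt a c := by
  simp only [dt, Complex.add_re, Complex.add_im]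
  ring

private theorem ang_dt_add' (a b c : ℂ) : dt (a + b) c = dt a c + dt b c := by
  simp only [dt, Complex.add_re, Complex.add_im]
  ring

private theorem ang_dt_neg (a b : ℂ) : dt a (-b) = - dt a b := by
  simp only [dt, Complex.neg_re, Complex.neg_im]
  ring

private theorem ang_dt_neg' (a b : ℂ) : dt (-a) b = - dt a b := by
  simp only [dt, Complex.neg_re, Complex.neg_im]
  ring

private theorem ang_dt_smul (r : ℝ) (a b : ℂ) : dt a ((r : ℂ) * b) = r * dt a b := by
  simp only [dt, Complex.mul_re, Complex.mul_im, Complex.ofReal_re, Complex.ofReal_im]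
  ring

private theorem ang_dt_smul' (r : ℝ) (a b : ℂ) : dt ((r : ℂ) * a) b = r * dt a b := by
  simp only [dt, Complex.mul_re, Complex.mul_im, Complex.ofReal_re, Complex.ofReal_im]
  ring

private theorem ang_dt_self (a : ℂ) : dt a a = 0 := by
  simp only [dt]
  ring

private theorem ang_dt_swap (a b : ℂ) : dt b a = - dt a b := by
  simp only [dt]
  ring

/-- Corner at the start of the triangle `A B C'`, `y = AB`, `z = BC'`, incoming direction `x`;
the incoming edge crosses `BC'`. -/
theorem turn_cornA {x y z : ℂ} {α β : ℝ} (hα : 0 < α) (hβ : 0 < β) (hyz : dt y z ≠ 0)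
    (hx : -x = (α : ℂ) * y + (β : ℂ) * (y + z)) :
    turn (z / x) = turn (y / x) + turn (z / y) + sg1 (dt x z) ∧
    turn ((y + z) / x) = turn (y / x) + turn (z / y) + turn ((y + z) / z) + sg1 (dt x z) := by
  have hx' : x = -((α : ℂ) * y + (β : ℂ) * (y + z)) := by rw [← hx, neg_neg]
  have d1 : dt x z = -((α + β) * dt y z) := by
    rw [hx', ang_dt_neg', ang_dt_add', ang_dt_smul', ang_dt_smul', ang_dt_add', ang_dt_self]
    ring
  have d2 : dt x y = β * dt y z := by
    rw [hx', ang_dt_neg', ang_dt_add', ang_dt_smul', ang_dt_smul', ang_dt_add', ang_dt_self,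
      ang_dt_swap y z]
    ring
  have d3 : dt x (y + z) = -(α * dt y z) := by
    rw [ang_dt_add, d1, d2]
    ring
  have d4 : dt z (y + z) = - dt y z := by
    rw [ang_dt_add, ang_dt_self, ang_dt_swap y z]
    ring
  have hab : 0 < α + β := by linarith
  have dxz : dt x z ≠ 0 := by
    rw [d1]
    exact neg_ne_zero.2 (mul_ne_zero hab.ne' hyz)
  obtain ⟨hx0, hz0⟩ := ang_ne dxz
  obtain ⟨hy0, -⟩ := ang_ne hyz
  have hyz0 : y + z ≠ 0 := by
    have : dt z (y + z) ≠ 0 := by
      rw [d4]
      exact neg_ne_zero.2 hyz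
    exact (ang_ne this).2
  obtain ⟨n, hn⟩ := turn_add hx0 hy0 hz0
  obtain ⟨m, hm⟩ := turn_add hx0 hz0 hyz0
  rcases lt_or_gt_of_ne hyz with hd | hd
  · have s1 : 0 < dt x z := by
      rw [d1]
      have := mul_neg_of_pos_of_neg hab hd
      linarith
    have s2 : dt x y < 0 := by
      rw [d2]
      exact mul_neg_of_pos_of_neg hβ hd
    have s3 : 0 < dt x (y + z) := by
      rw [d3]
      have := mul_neg_of_pos_of_neg hα hd
      linarith
    have s4 : 0 < dt z (y + z) := by
      rw [d4]
      linarith
    have t1 := ang_pos s1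
    have t2 := ang_neg s2
    have t3 := ang_pos s3
    have t4 := ang_pos s4
    have t5 := ang_neg hd
    have hn1 : (n : ℝ) = 1 := by
      apply ang_int1 <;> linarith
    have hm0 : (m : ℝ) = 0 := by
      apply ang_int0 <;> linarith
    have hs : sg1 (dt x z) = 1 := by
      unfold sg1
      rw [if_pos s1]
    rw [hs]
    constructor <;> linarith
  · have s1 : dt x z < 0 := by
      rw [d1]
      have := mul_pos hab hd
      linarith
    have s2 : 0 < dt x y := by
      rw [d2]
      exact mul_pos hβ hd
    have s3 : dt x (y + z) < 0 := by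
      rw [d3]
      have := mul_pos hα hd
      linarith
    have s4 : dt z (y + z) < 0 := by
      rw [d4]
      linarith
    have t1 := ang_neg s1
    have t2 := ang_pos s2
    have t3 := ang_neg s3
    have t4 := ang_neg s4
    have t5 := ang_pos hd
    have hn1 : (n : ℝ) = -1 := by
      apply ang_intm <;> linarith
    have hm0 : (m : ℝ) = 0 := by
      apply ang_int0 <;> linarith
    have hs : sg1 (dt x z) = -1 := by
      unfold sg1
      rw [if_neg (not_lt.2 s1.le)]
    rw [hs]
    constructor <;> linarith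

/-- Equal directions. -/
private theorem ang_zero {x y : ℂ} {r : ℝ} (hr : 0 < r) (hy : y ≠ 0) (h : x = (r : ℂ) * y) :
    turn (y / x) = 0 ∧ turn (x / y) = 0 := by
  have h9 : (r : ℂ) ≠ 0 := by exact_mod_cast hr.ne'
  have h1 : y / x = ((r⁻¹ : ℝ) : ℂ) := by
    rw [h]
    push_cast
    field_simp
  have h2 : x / y = ((r : ℝ) : ℂ) := by
    rw [h]
    field_simp
  have h3 : Complex.arg (y / x) = 0 := by
    rw [h1]
    exact Complex.arg_ofReal_of_nonneg (inv_pos.2 hr).le
  have h4 : Complex.arg (x / y) = 0 := by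
    rw [h2]
    exact Complex.arg_ofReal_of_nonneg hr.le
  unfold turn
  rw [h3, h4]
  simp

/-- Every vector is a combination of two independent ones. -/
private theorem ang_comb {u v : ℂ} (h : dt u v ≠ 0) (w : ℂ) :
    ∃ a b : ℝ, w = (a : ℂ) * u + (b : ℂ) * v := by
  refine ⟨dt w v / dt u v, dt u w / dt u v, ?_⟩
  have e : ∀ t p q : ℝ, t * dt u v = dt w v * p + dt u w * q →
      t = dt w v / dt u v * p + dt u w / dt u v * q := by
    intro t p q h1
    have : t = (dt w v * p + dt u w * q) / dt u v := by
      rw [← h1, mul_div_assoc, div_self h, mul_one]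
    rw [this]
    ring
  apply Complex.ext
  · simp only [Complex.add_re, Complex.mul_re, Complex.ofReal_re, Complex.ofReal_im, zero_mul,
      sub_zero]
    apply e
    unfold dt
    ring
  · simp only [Complex.add_im, Complex.mul_im, Complex.ofReal_re, Complex.ofReal_im, zero_mul,
      add_zero]
    apply e
    unfold dt
    ring

/-- The same without crossing. -/
theorem turn_cornA0 {x y z : ℂ} (hx0 : x ≠ 0) (hyz : dt y z ≠ 0)
    (hx : ∀ α β : ℝ, 0 ≤ α → 0 ≤ β → -x ≠ (α : ℂ) * y + (β : ℂ) * (y + z)) :
    turn ((y + z) / x) = turn (y / x) + turn (z / y) + turn ((y + z) / z) := by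
  have d5 : dt y (y + z) = dt y z := by
    rw [ang_dt_add, ang_dt_self]
    ring
  have d4 : dt z (y + z) = - dt y z := by
    rw [ang_dt_add, ang_dt_self, ang_dt_swap y z]
    ring
  obtain ⟨α, β, hx1⟩ := ang_comb (u := y) (v := y + z) (by rw [d5]; exact hyz) (-x)
  have hx' : x = -((α : ℂ) * y + (β : ℂ) * (y + z)) := by rw [← hx1, neg_neg]
  have d2 : dt x y = β * dt y z := by
    rw [hx', ang_dt_neg', ang_dt_add', ang_dt_smul', ang_dt_smul', ang_dt_add', ang_dt_self,
      ang_dt_swap y z]
    ring
  have d3 : dt x (y + z) = -(α * dt y z) := by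
    rw [hx', ang_dt_neg', ang_dt_add', ang_dt_smul', ang_dt_smul', ang_dt_self, d5]
    ring
  obtain ⟨hy0, hz0⟩ := ang_ne hyz
  have hyz0 : y + z ≠ 0 := by
    have : dt z (y + z) ≠ 0 := by
      rw [d4]
      exact neg_ne_zero.2 hyz
    exact (ang_ne this).2
  obtain ⟨n, hn⟩ := turn_add hx0 hy0 hyz0
  obtain ⟨m, hm⟩ := turn_add hy0 hz0 hyz0
  have hab : β < 0 ∨ (0 ≤ β ∧ α < 0) := by
    rcases lt_or_ge β 0 with h | h
    · exact Or.inl h
    · refine Or.inr ⟨h, ?_⟩
      by_contra hc
      exact hx α β (not_lt.1 hc) h hx1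
  have b1 := turn_mem ((y + z) / x)
  have b2 := turn_mem (y / x)
  rcases lt_or_gt_of_ne hyz with hd | hd
  · have t5 := ang_neg hd
    have t6 := ang_neg (x := y) (z := y + z) (by rw [d5]; exact hd)
    have t4 := ang_pos (x := z) (z := y + z) (by rw [d4]; linarith)
    have hm0 : (m : ℝ) = 0 := by
      apply ang_int0 <;> linarith
    have hn0 : (n : ℝ) = 0 := by
      rcases hab with hb | ⟨hb, ha⟩
      · have s2 : 0 < dt x y := by
          rw [d2]
          exact mul_pos_of_neg_of_neg hb hd
        have t2 := ang_pos s2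
        apply ang_int0 <;> linarith
      · have s3 : dt x (y + z) < 0 := by
          rw [d3]
          have := mul_pos_of_neg_of_neg ha hd
          linarith
        have t3 := ang_neg s3
        rcases hb.eq_or_lt with hb0 | hb0
        · have h8 : x = ((-α : ℝ) : ℂ) * y := by
            rw [hx', ← hb0]
            push_cast
            ring
          have h := (ang_zero (by linarith) hy0 h8).1
          apply ang_int0 <;> linarith
        · have s2 : dt x y < 0 := by
            rw [d2]
            exact mul_neg_of_pos_of_neg hb0 hd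
          have t2 := ang_neg s2
          apply ang_int0 <;> linarith
    linarith
  · have t5 := ang_pos hd
    have t6 := ang_pos (x := y) (z := y + z) (by rw [d5]; exact hd)
    have t4 := ang_neg (x := z) (z := y + z) (by rw [d4]; linarith)
    have hm0 : (m : ℝ) = 0 := by
      apply ang_int0 <;> linarith
    have hn0 : (n : ℝ) = 0 := by
      rcases hab with hb | ⟨hb, ha⟩
      · have s2 : dt x y < 0 := by
          rw [d2]
          exact mul_neg_of_neg_of_pos hb hd
        have t2 := ang_neg s2
        apply ang_int0 <;> linarith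
      · have s3 : 0 < dt x (y + z) := by
          rw [d3]
          have := mul_neg_of_neg_of_pos ha hd
          linarith
        have t3 := ang_pos s3
        have s2 : 0 ≤ dt x y := by
          rw [d2]
          exact mul_nonneg hb hd.le
        have t2 := ang_nonneg hx0 hy0 s2
        apply ang_int0 <;> linarith
    linarith

/-- Corner at the end of the triangle `A' B C`, `y = A'B`, `z = BC`, outgoing direction `x`;
the outgoing edge crosses `A'B`. -/
theorem turn_cornC {x y z : ℂ} {α β : ℝ} (hα : 0 < α) (hβ : 0 < β) (hyz : dt y z ≠ 0)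
    (hx : x = (α : ℂ) * (-z) + (β : ℂ) * (-(y + z))) :
    turn (x / y) = turn (z / y) + turn (x / z) + sg1 (dt y x) ∧
    turn (x / (y + z)) = turn (y / (y + z)) + turn (z / y) + turn (x / z) + sg1 (dt y x) := by
  have d1 : dt y x = -((α + β) * dt y z) := by
    rw [hx, ang_dt_add, ang_dt_smul, ang_dt_smul, ang_dt_neg, ang_dt_neg, ang_dt_add, ang_dt_self]
    ring
  have d2 : dt z x = β * dt y z := by
    rw [hx, ang_dt_add, ang_dt_smul, ang_dt_smul, ang_dt_neg, ang_dt_neg, ang_dt_add, ang_dt_self,
      ang_dt_swap y z]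
    ring
  have d3 : dt (y + z) x = -(α * dt y z) := by
    rw [ang_dt_add', d1, d2]
    ring
  have d4 : dt (y + z) y = - dt y z := by
    rw [ang_dt_add', ang_dt_self, ang_dt_swap y z]
    ring
  have hab : 0 < α + β := by linarith
  have dyx : dt y x ≠ 0 := by
    rw [d1]
    exact neg_ne_zero.2 (mul_ne_zero hab.ne' hyz)
  obtain ⟨hy0, hx0⟩ := ang_ne dyx
  obtain ⟨-, hz0⟩ := ang_ne hyz
  have hyz0 : y + z ≠ 0 := by
    have : dt (y + z) y ≠ 0 := by
      rw [d4]
      exact neg_ne_zero.2 hyz
    exact (ang_ne this).1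
  obtain ⟨n, hn⟩ := turn_add hy0 hz0 hx0
  obtain ⟨m, hm⟩ := turn_add hyz0 hy0 hx0
  rcases lt_or_gt_of_ne hyz with hd | hd
  · have s1 : 0 < dt y x := by
      rw [d1]
      have := mul_neg_of_pos_of_neg hab hd
      linarith
    have s2 : dt z x < 0 := by
      rw [d2]
      exact mul_neg_of_pos_of_neg hβ hd
    have s3 : 0 < dt (y + z) x := by
      rw [d3]
      have := mul_neg_of_pos_of_neg hα hd
      linarith
    have s4 : 0 < dt (y + z) y := by
      rw [d4]
      linarith
    have t1 := ang_pos s1
    have t2 := ang_neg s2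
    have t3 := ang_pos s3
    have t4 := ang_pos s4
    have t5 := ang_neg hd
    have hn1 : (n : ℝ) = 1 := by
      apply ang_int1 <;> linarith
    have hm0 : (m : ℝ) = 0 := by
      apply ang_int0 <;> linarith
    have hs : sg1 (dt y x) = 1 := by
      unfold sg1
      rw [if_pos s1]
    rw [hs]
    constructor <;> linarith
  · have s1 : dt y x < 0 := by
      rw [d1]
      have := mul_pos hab hd
      linarith
    have s2 : 0 < dt z x := by
      rw [d2]
      exact mul_pos hβ hd
    have s3 : dt (y + z) x < 0 := by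
      rw [d3]
      have := mul_pos hα hd
      linarith
    have s4 : dt (y + z) y < 0 := by
      rw [d4]
      linarith
    have t1 := ang_neg s1
    have t2 := ang_pos s2
    have t3 := ang_neg s3
    have t4 := ang_neg s4
    have t5 := ang_pos hd
    have hn1 : (n : ℝ) = -1 := by
      apply ang_intm <;> linarith
    have hm0 : (m : ℝ) = 0 := by
      apply ang_int0 <;> linarith
    have hs : sg1 (dt y x) = -1 := by
      unfold sg1
      rw [if_neg (not_lt.2 s1.le)]
    rw [hs]
    constructor <;> linarith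

/-- The same without crossing. -/
theorem turn_cornC0 {x y z : ℂ} (hx0 : x ≠ 0) (hyz : dt y z ≠ 0)
    (hx : ∀ α β : ℝ, 0 ≤ α → 0 ≤ β → x ≠ (α : ℂ) * (-z) + (β : ℂ) * (-(y + z))) :
    turn (x / (y + z)) = turn (y / (y + z)) + turn (z / y) + turn (x / z) := by
  have d4 : dt (y + z) y = - dt y z := by
    rw [ang_dt_add', ang_dt_self, ang_dt_swap y z]
    ring
  have d5 : dt (y + z) z = dt y z := by
    rw [ang_dt_add', ang_dt_self]
    ring
  obtain ⟨α, β, hx1⟩ := ang_comb (u := -z) (v := -(y + z)) (by
    rw [ang_dt_neg, ang_dt_neg', ang_dt_swap (y + z) z, d5, neg_neg]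
    exact neg_ne_zero.2 hyz) x
  have d2 : dt z x = β * dt y z := by
    rw [hx1, ang_dt_add, ang_dt_smul, ang_dt_smul, ang_dt_neg, ang_dt_neg, ang_dt_add, ang_dt_self,
      ang_dt_swap y z]
    ring
  have d3 : dt (y + z) x = -(α * dt y z) := by
    rw [hx1, ang_dt_add, ang_dt_smul, ang_dt_smul, ang_dt_neg, ang_dt_neg, ang_dt_self, d5]
    ring
  obtain ⟨hy0, hz0⟩ := ang_ne hyz
  have hyz0 : y + z ≠ 0 := by
    have : dt (y + z) y ≠ 0 := by
      rw [d4]
      exact neg_ne_zero.2 hyz
    exact (ang_ne this).1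
  obtain ⟨n, hn⟩ := turn_add hyz0 hz0 hx0
  obtain ⟨m, hm⟩ := turn_add hyz0 hy0 hz0
  have hab : β < 0 ∨ (0 ≤ β ∧ α < 0) := by
    rcases lt_or_ge β 0 with h | h
    · exact Or.inl h
    · refine Or.inr ⟨h, ?_⟩
      by_contra hc
      exact hx α β (not_lt.1 hc) h hx1
  have b1 := turn_mem (x / (y + z))
  have b2 := turn_mem (x / z)
  rcases lt_or_gt_of_ne hyz with hd | hd
  · have t5 := ang_neg hd
    have t6 := ang_neg (x := y + z) (z := z) (by rw [d5]; exact hd)
    have t4 := ang_pos (x := y + z) (z := y) (by rw [d4]; linarith)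
    have hm0 : (m : ℝ) = 0 := by
      apply ang_int0 <;> linarith
    have hn0 : (n : ℝ) = 0 := by
      rcases hab with hb | ⟨hb, ha⟩
      · have s2 : 0 < dt z x := by
          rw [d2]
          exact mul_pos_of_neg_of_neg hb hd
        have t2 := ang_pos s2
        apply ang_int0 <;> linarith
      · have s3 : dt (y + z) x < 0 := by
          rw [d3]
          have := mul_pos_of_neg_of_neg ha hd
          linarith
        have t3 := ang_neg s3
        rcases hb.eq_or_lt with hb0 | hb0
        · have h8 : x = ((-α : ℝ) : ℂ) * z := by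
            rw [hx1, ← hb0]
            push_cast
            ring
          have h := (ang_zero (by linarith) hz0 h8).2
          apply ang_int0 <;> linarith
        · have s2 : dt z x < 0 := by
            rw [d2]
            exact mul_neg_of_pos_of_neg hb0 hd
          have t2 := ang_neg s2
          apply ang_int0 <;> linarith
    linarith
  · have t5 := ang_pos hd
    have t6 := ang_pos (x := y + z) (z := z) (by rw [d5]; exact hd)
    have t4 := ang_neg (x := y + z) (z := y) (by rw [d4]; linarith)
    have hm0 : (m : ℝ) = 0 := by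
      apply ang_int0 <;> linarith
    have hn0 : (n : ℝ) = 0 := by
      rcases hab with hb | ⟨hb, ha⟩
      · have s2 : dt z x < 0 := by
          rw [d2]
          exact mul_neg_of_neg_of_pos hb hd
        have t2 := ang_neg s2
        apply ang_int0 <;> linarith
      · have s3 : 0 < dt (y + z) x := by
          rw [d3]
          have := mul_neg_of_neg_of_pos ha hd
          linarith
        have t3 := ang_pos s3
        have s2 : 0 ≤ dt z x := by
          rw [d2]
          exact mul_nonneg hb hd.le
        have t2 := ang_nonneg hz0 hx0 s2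
        apply ang_int0 <;> linarith
    linarith

end Pool.Agent.Lib.MP_ca0971_gt.OT
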