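import Pool.Agent.Lib.MP_ca0971_gt.OT.Net.Word
import Pool.Agent.Lib.MP_ca0971_gt.OT.Net.Ord
import Pool.Agent.Lib.MP_ca0971_gt.OT.Net.Reindex
import Pool.Agent.Lib.MP_ca0971_gt.OT.Net.Bound
import Pool.Agent.Lib.MP_ca0971_gt.OT.Net.Ins
import Pool.Agent.Lib.MP_ca0971_gt.OT.Net.SlideD
import Pool.Agent.Lib.MP_ca0971_gt.OT.Net.R2D
import Pool.Agent.Lib.MP_ca0971_gt.OT.Net.R3D
import Pool.Agent.Lib.MP_ca0971_gt.OT.Net.R1D

/-!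
# Project OT: the moves of the state sum of abstract diagrams (aggregator)

The theorems `Dia.ZM_eq`, `Dia.Z_ord`, `Dia.Z_gauge`, `Dia.Z_reindex`, `Dia.Z_free`,
`Dia.Z_slide_over`, `Dia.Z_slide_under`, `Dia.Z_R2_over`, `Dia.Z_R2_under`, `Dia.Z_R3`,
`Dia.Z_R1_over`, `Dia.Z_R1_under`, `Dia.Z_ins`, `Dia.Z_bound` are in the folder `OT/Net`.
-/
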