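import Mathlib

/-!
# Project OT, MP_ca0971_gt: common definitions (helper66)

Space is `E = ℂ × ℝ`: the first coordinate is the plane of the projection (`X + i Z` in the contact
coordinates `α = dZ - Y dX`), the second one is the height `h = - Y` (larger height = over).

* closed polygons: `(σ, v)` with `σ : Equiv.Perm I` (the next vertex) and `v : I → E`; edge `i` goes
  from `v i` to `v (σ i)`;
* abstract diagrams `Dia I`, their state sum `Dia.Z` (the vertex model of the N-dimensional
  representation of quantum gl(N) at `q = 2`, with rotation weights at the vertices);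
* `Zh` = the normalised state sum of a polygon, `ZhL` = the same for a list of points.
-/

set_option autoImplicit false

namespace Pool.Agent.Lib.MP_ca0971_gt.OT

open Finset

/-- Plane of the projection times height. -/
abbrev E : Type := ℂ × ℝ

/-- Planar determinant. -/
def dt (a b : ℂ) : ℝ := a.re * b.im - a.im * b.re

/-- Angle in full turns, in `(-1/2, 1/2]`. -/
noncomputable def turn (z : ℂ) : ℝ := Complex.arg z / (2 * Real.pi)

/-! ### The state sum of an abstract net -/

/-- Weight exponent of a colour. -/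
def kap (N : ℕ) (c : Fin N) : ℝ := (N : ℝ) - 1 - 2 * ((c : ℕ) : ℝ)

/-- The local weight of a crossing of sign `e` and angle `b` (in full turns, from the over to the
under strand): colours `o u` come in on the over and the under strand, `o' u'` go out. -/
noncomputable def Tw (N : ℕ) (e b : ℝ) (o u o' u' : Fin N) : ℝ :=
  if o' = o ∧ u' = u then (if o = u then (2 : ℝ) ^ e else 1)
  else if o' = u ∧ u' = o ∧ o < u then
    e * (3 / 2) * (2 : ℝ) ^ (2 * (((u : ℕ) : ℝ) - ((o : ℕ) : ℝ)) * b)
  else 0

/-- State sum of a net. `J` = cut points; the piece `j` goes from the cut point `j` to the cut point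
`nx j`; `g j` = turning at the cut point `j`; a crossing `x ∈ C` lies on the pieces `ov x`, `un x`. -/
noncomputable def netZ {J X : Type} [Fintype J] [DecidableEq J] (N : ℕ) (nx : J → J) (g : J → ℝ)
    (C : Finset X) (ov un : X → J) (ep b : X → ℝ) : ℝ :=
  ∑ s : J → Fin N, (∏ j, (2 : ℝ) ^ (kap N (s j) * g j)) *
    (∏ j, if (∀ x ∈ C, ov x ≠ j ∧ un x ≠ j) ∧ s (nx j) ≠ s j then (0 : ℝ) else 1) *
    ∏ x ∈ C, Tw N (ep x) (b x) (s (ov x)) (s (un x)) (s (nx (ov x))) (s (nx (un x)))

/-- Next cut point in the grid `I × Fin (M + 1)`. -/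
def gnx {I : Type} (σ : Equiv.Perm I) (M : ℕ) (j : I × Fin (M + 1)) : I × Fin (M + 1) :=
  if h : j.2.val + 1 < M + 1 then (j.1, ⟨j.2.val + 1, h⟩) else (σ j.1, 0)

/-! ### Abstract diagrams -/

/-- An abstract diagram on the edge set `I`: `C` = crossings (over edge, under edge), `pos i j` =
position on the edge `i` of its crossing with `j`, `th i` = turning at the END of the edge `i`,
`ep o u` = sign, `b o u` = turn from the direction of `o` to the direction of `u`. -/
structure Dia (I : Type) where
  C : Finset (I × I)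
  pos : I → I → ℝ
  th : I → ℝ
  ep : I → I → ℝ
  b : I → I → ℝ

variable {I : Type}

/-- The edge `i` has a crossing with the edge `j`. -/
def Dia.Pas (D : Dia I) (i j : I) : Prop := (i, j) ∈ D.C ∨ (j, i) ∈ D.C

structure Dia.Ok (D : Dia I) : Prop where
  irr : ∀ i, (i, i) ∉ D.C
  asym : ∀ i j, (i, j) ∈ D.C → (j, i) ∉ D.C
  inj : ∀ i j k, D.Pas i j → D.Pas i k → D.pos i j = D.pos i k → j = k
  sgn : ∀ i j, (i, j) ∈ D.C → D.ep i j = 1 ∨ D.ep i j = -1

/-- The state sum with `M + 1` pieces on every edge; the crossing of `i` with `j` is on the piece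
number `k i j` of the edge `i`. -/
noncomputable def Dia.ZM [Fintype I] [DecidableEq I] (D : Dia I) (σ : Equiv.Perm I) (N M : ℕ)
    (k : I → I → ℕ) : ℝ :=
  netZ N (gnx σ M) (fun j => if j.2 = 0 then D.th (σ.symm j.1) else 0) D.C
    (fun x => (x.1, Fin.ofNat (M + 1) (k x.1 x.2))) (fun x => (x.2, Fin.ofNat (M + 1) (k x.2 x.1)))
    (fun x => D.ep x.1 x.2) (fun x => D.b x.1 x.2)

open Classical in
/-- Rank of the crossing with `j` on the edge `i`. -/
noncomputable def Dia.rk [Fintype I] (D : Dia I) (i j : I) : ℕ :=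
  (univ.filter fun k => D.Pas i k ∧ D.pos i k < D.pos i j).card

/-- The state sum. -/
noncomputable def Dia.Z [Fintype I] [DecidableEq I] (D : Dia I) (σ : Equiv.Perm I) (N : ℕ) : ℝ :=
  D.ZM σ N (Fintype.card I) D.rk

/-- `k` is a valid choice of pieces. -/
def Dia.Val (D : Dia I) (M : ℕ) (k : I → I → ℕ) : Prop :=
  (∀ i j, D.Pas i j → k i j ≤ M) ∧
    ∀ i j l, D.Pas i j → D.Pas i l → D.pos i j < D.pos i l → k i j < k i l

/-- Writhe. -/
def Dia.w (D : Dia I) : ℝ := ∑ x ∈ D.C, D.ep x.1 x.2

/-- Normalised state sum. -/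
noncomputable def Dia.Zh [Fintype I] [DecidableEq I] (D : Dia I) (σ : Equiv.Perm I) (N : ℕ) : ℝ :=
  (2 : ℝ) ^ (-((N : ℝ) * D.w)) * D.Z σ N

/-- Quantum integer `[N]` at `q = 2`. -/
noncomputable def br (N : ℕ) : ℝ := ∑ c : Fin N, (2 : ℝ) ^ kap N c

/-! ### Polygons -/

section Poly

variable (σ : Equiv.Perm I) (v : I → E)

/-- Direction of the edge `i` in the projection. -/
def dd (i : I) : ℂ := (v (σ i)).1 - (v i).1

/-- Increase of the height along the edge `i`. -/
def dh (i : I) : ℝ := (v (σ i)).2 - (v i).2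

/-- Parameter on the edge `i` of its intersection with the line of the edge `j`. -/
noncomputable def par (i j : I) : ℝ :=
  dt ((v j).1 - (v i).1) (dd σ v j) / dt (dd σ v i) (dd σ v j)

/-- Height of the edge `i` over its intersection with the line of `j`. -/
noncomputable def ht (i j : I) : ℝ := (v i).2 + par σ v i j * dh σ v i

/-- Equal or consecutive edges. -/
def Adj (i j : I) : Prop := i = j ∨ j = σ i ∨ i = σ j

/-- Crossing of two nonadjacent edges in the projection. -/
def Crs (i j : I) : Prop :=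
  ¬ Adj σ i j ∧ dt (dd σ v i) (dd σ v j) ≠ 0 ∧ 0 < par σ v i j ∧ par σ v i j < 1 ∧
    0 < par σ v j i ∧ par σ v j i < 1

/-- Projected closed edge. -/
def sg (i : I) : Set ℂ := segment ℝ (v i).1 (v (σ i)).1

open Classical in
/-- The diagram of a polygon. -/
noncomputable def dia [Fintype I] : Dia I where
  C := univ.filter fun p => Crs σ v p.1 p.2 ∧ ht σ v p.2 p.1 < ht σ v p.1 p.2
  pos := par σ v
  th := fun i => turn (dd σ v (σ i) / dd σ v i)
  ep := fun i j => if 0 < dt (dd σ v i) (dd σ v j) then 1 else -1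
  b := fun i j => turn (dd σ v j / dd σ v i)

/-- Normalised state sum of a polygon. -/
noncomputable def Zh [Fintype I] [DecidableEq I] (N : ℕ) : ℝ := (dia σ v).Zh σ N

/-- Generic polygon (straight vertices are allowed, also collinear disjoint edges). -/
structure Gen : Prop where
  slit : ∀ i, dd σ v (σ i) / dd σ v i ∈ Complex.slitPlane
  ver : ∀ i j, j ≠ i → σ j ≠ i → (v i).1 ∉ sg σ v j
  trp : ∀ i j k, Crs σ v i j → Crs σ v i k → par σ v i j = par σ v i k → j = k
  hgt : ∀ i j, Crs σ v i j → ht σ v i j ≠ ht σ v j i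

/-- Tame polygon: the only coincidences allowed in the projection are: a vertex on ONE edge, triple
points of three edge interiors. -/
structure Tame : Prop where
  slit : ∀ i, dd σ v (σ i) / dd σ v i ∈ Complex.slitPlane
  par0 : ∀ i j, ¬ Adj σ i j → dt (dd σ v i) (dd σ v j) = 0 → Disjoint (sg σ v i) (sg σ v j)
  vtx : ∀ i j, i ≠ j → (v i).1 ≠ (v j).1
  one : ∀ i j k, j ≠ i → σ j ≠ i → k ≠ i → σ k ≠ i → (v i).1 ∈ sg σ v j → (v i).1 ∈ sg σ v k → j = k
  trp : ∀ i j k l, Crs σ v i j → Crs σ v i k → Crs σ v i l → par σ v i j = par σ v i k →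
    par σ v i j = par σ v i l → j = k ∨ j = l ∨ k = l
  hgt : ∀ i j, ¬ Adj σ i j → dt (dd σ v i) (dd σ v j) ≠ 0 → 0 ≤ par σ v i j → par σ v i j ≤ 1 →
    0 ≤ par σ v j i → par σ v j i ≤ 1 → ht σ v i j ≠ ht σ v j i

end Poly

/-! ### Insertion of a vertex -/

/-- The new vertex `none` is put on the edge `i0`. -/
def insS [DecidableEq I] (σ : Equiv.Perm I) (i0 : I) : Equiv.Perm (Option I) :=
  (Equiv.swap none (some (σ i0))) * (Equiv.optionCongr σ)

def insV (v : I → E) (B : E) : Option I → E := fun o => o.elim B v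

/-! ### Lists of points -/

/-- State sum of the closed polygon given by a list of points. -/
noncomputable def ZhL (N : ℕ) (l : List E) : ℝ := Zh (finRotate l.length) (fun i => l.get i) N

/-- The triangle `(last l, B, head l)` meets the edges of the open path `l` only in its corners
`last l`, `head l`. -/
def TriOK (l : List E) (B : E) : Prop :=
  ∀ A C : E, l.getLast? = some A → l.head? = some C → ∀ e ∈ l.zip l.tail,
    segment ℝ e.1 e.2 ∩ convexHull ℝ {A, B, C} ⊆ {A, C}

/-- General position in the projection of a family of points. -/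
def GP {W : Type} (p : W → E) : Prop :=
  (∀ a b c : W, a ≠ b → a ≠ c → b ≠ c → dt ((p b).1 - (p a).1) ((p c).1 - (p a).1) ≠ 0) ∧
  (∀ a a' b b' c c' : W, [a, a', b, b', c, c'].Nodup →
    dt (p a).1 (p a').1 * dt ((p b').1 - (p b).1) ((p c').1 - (p c).1)
      + dt (p b).1 (p b').1 * dt ((p c').1 - (p c).1) ((p a').1 - (p a).1)
      + dt (p c).1 (p c').1 * dt ((p a').1 - (p a).1) ((p b').1 - (p b).1) ≠ 0)

/-- Reduction of a closed polygon (list of indices) to a triangle by triangle moves across triangles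
which are disjoint from `Q`. -/
inductive Chain {W : Type} (F : W → E) (Q : Set E) : List W → Prop
  | base (a b c : W) (h : [a, b, c].Nodup) (hQ : Disjoint (convexHull ℝ {F a, F b, F c}) Q) :
      Chain F Q [a, b, c]
  | rot (l : List W) (k : ℕ) (h : Chain F Q l) : Chain F Q (l.rotate k)
  | del (l : List W) (b : W) (h : Chain F Q l) (hb : b ∉ l) (ht : TriOK (l.map F) (F b))
      (hQ : ∀ A C : W, l.getLast? = some A → l.head? = some C →
        Disjoint (convexHull ℝ {F A, F b, F C}) Q) : Chain F Q (l ++ [b])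
  | add (l : List W) (b : W) (h3 : 3 ≤ l.length) (h : Chain F Q (l ++ [b]))
      (ht : TriOK (l.map F) (F b))
      (hQ : ∀ A C : W, l.getLast? = some A → l.head? = some C →
        Disjoint (convexHull ℝ {F A, F b, F C}) Q) : Chain F Q l

end Pool.Agent.Lib.MP_ca0971_gt.OT
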