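import Pool.Agent.Lib.MP_ca0971_gt.OT.Defs

set_option autoImplicit false

namespace Pool.Agent.Lib.MP_ca0971_gt.OT

open Filter Topology

/-- A function which is continuous, analytic along every line and not zero somewhere is not zero on
a dense set. -/
theorem gp_dense_ne {V : Type} [NormedAddCommGroup V] [NormedSpace ℝ V] (f : V → ℝ)
    (ha : ∀ x y : V, AnalyticOnNhd ℝ (fun t : ℝ => f (x + t • (y - x))) Set.univ)
    (y : V) (hy : f y ≠ 0) : Dense {x | f x ≠ 0} := by
  intro x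
  rw [mem_closure_iff_frequently]
  have h1 : ∃ᶠ t : ℝ in 𝓝 0, f (x + t • (y - x)) ≠ 0 := by
    intro h
    have h2 : (fun t : ℝ => f (x + t • (y - x))) =ᶠ[𝓝 0] fun _ => (0 : ℝ) := by
      filter_upwards [h] with t ht
      simpa using ht
    have h3 := (ha x y).eqOn_of_preconnected_of_eventuallyEq
      (analyticOnNhd_const (v := (0 : ℝ))) isPreconnected_univ (Set.mem_univ (0 : ℝ)) h2
    have h4 := h3 (Set.mem_univ (1 : ℝ))
    apply hy
    simpa using h4
  have h2 : Tendsto (fun t : ℝ => x + t • (y - x)) (𝓝 0) (𝓝 x) := by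
    have : Continuous fun t : ℝ => x + t • (y - x) := by fun_prop
    simpa using this.tendsto 0
  exact h2.frequently h1

/-- The first condition. -/
def gpF {W : Type} (q : W × W × W) (p : W → E) : ℝ :=
  dt ((p q.2.1).1 - (p q.1).1) ((p q.2.2).1 - (p q.1).1)

/-- The second condition. -/
def gpG {W : Type} (q : W × W × W × W × W × W) (p : W → E) : ℝ :=
  dt (p q.1).1 (p q.2.1).1 *
      dt ((p q.2.2.2.1).1 - (p q.2.2.1).1) ((p q.2.2.2.2.2).1 - (p q.2.2.2.2.1).1)
    + dt (p q.2.2.1).1 (p q.2.2.2.1).1 *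
      dt ((p q.2.2.2.2.2).1 - (p q.2.2.2.2.1).1) ((p q.2.1).1 - (p q.1).1)
    + dt (p q.2.2.2.2.1).1 (p q.2.2.2.2.2).1 *
      dt ((p q.2.1).1 - (p q.1).1) ((p q.2.2.2.1).1 - (p q.2.2.1).1)

/-- General position is dense. Proof: finitely many conditions `f_k F ≠ 0`; each `f_k` is a
polynomial along every line `t ↦ F + t (F1 - F)`, is not zero for a suitable `F1` (for the first kind
the points `1, I, 0`, for the second kind three lines in general position), so `{f_k ≠ 0}` is open and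
dense; a finite intersection of open dense sets is dense. -/
theorem gp_dense {W : Type} [Fintype W] [DecidableEq W] (F0 : W → E) : ∃ᶠ F in 𝓝 F0, GP F := by
  have hF : ∀ q : {q : W × W × W // q.1 ≠ q.2.1 ∧ q.1 ≠ q.2.2 ∧ q.2.1 ≠ q.2.2},
      IsOpen {p : W → E | gpF q.1 p ≠ 0} ∧ Dense {p : W → E | gpF q.1 p ≠ 0} := by
    rintro ⟨⟨a, b, c⟩, hab, hac, hbc⟩
    simp only at hab hac hbc
    have hc : Continuous (gpF (a, b, c) : (W → E) → ℝ) := by
      unfold gpF dt
      fun_prop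
    refine ⟨isOpen_ne_fun hc continuous_const, ?_⟩
    refine gp_dense_ne _ ?_ (fun w => if w = b then ((1 : ℂ), (0 : ℝ)) else
      if w = c then (Complex.I, (0 : ℝ)) else 0) ?_
    · intro x y
      simp only [gpF, dt, Pi.add_apply, Pi.smul_apply, Pi.sub_apply, Prod.fst_add, Prod.smul_fst,
        Prod.fst_sub, Complex.sub_re, Complex.sub_im, Complex.add_re, Complex.add_im,
        Complex.real_smul, Complex.mul_re, Complex.mul_im, Complex.ofReal_re, Complex.ofReal_im]
      intro t _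
      fun_prop
    · simp [gpF, dt, hab, hac, hbc.symm]
  have hG : ∀ q : {q : W × W × W × W × W × W // [q.1, q.2.1, q.2.2.1, q.2.2.2.1, q.2.2.2.2.1,
      q.2.2.2.2.2].Nodup},
      IsOpen {p : W → E | gpG q.1 p ≠ 0} ∧ Dense {p : W → E | gpG q.1 p ≠ 0} := by
    rintro ⟨⟨a, a', b, b', c, c'⟩, hn⟩
    simp only at hn
    have hc : Continuous (gpG (a, a', b, b', c, c') : (W → E) → ℝ) := by
      unfold gpG dt
      fun_prop
    refine ⟨isOpen_ne_fun hc continuous_const, ?_⟩
    refine gp_dense_ne _ ?_ (fun w => if w = a' then ((1 : ℂ), (0 : ℝ)) else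
      if w = b' then (Complex.I, (0 : ℝ)) else if w = c then ((1 : ℂ), (0 : ℝ)) else
      if w = c' then (Complex.I, (0 : ℝ)) else 0) ?_
    · intro x y
      simp only [gpG, dt, Pi.add_apply, Pi.smul_apply, Pi.sub_apply, Prod.fst_add, Prod.smul_fst,
        Prod.fst_sub, Complex.sub_re, Complex.sub_im, Complex.add_re, Complex.add_im,
        Complex.real_smul, Complex.mul_re, Complex.mul_im, Complex.ofReal_re, Complex.ofReal_im]
      intro t _
      fun_prop
    · simp only [List.nodup_cons, List.mem_cons, List.not_mem_nil, or_false, not_or,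
        List.nodup_nil, and_true, not_false_eq_true] at hn
      obtain ⟨⟨h1, h2, h3, h4, h5⟩, ⟨h6, h7, h8, h9⟩, ⟨h10, h11, h12⟩, ⟨h13, h14⟩, h15⟩ := hn
      simp [gpG, dt, h1, h2, h3, h4, h5, h6, h7, h8, h9, h10, h11, h12, h13, h14, h15,
        Ne.symm h1, Ne.symm h2, Ne.symm h3, Ne.symm h4, Ne.symm h5, Ne.symm h6, Ne.symm h7,
        Ne.symm h8, Ne.symm h9, Ne.symm h10, Ne.symm h11, Ne.symm h12, Ne.symm h13, Ne.symm h14,
        Ne.symm h15]
  have hD : Dense ((⋂ q : {q : W × W × W // q.1 ≠ q.2.1 ∧ q.1 ≠ q.2.2 ∧ q.2.1 ≠ q.2.2},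
      {p : W → E | gpF q.1 p ≠ 0}) ∩ ⋂ q : {q : W × W × W × W × W × W //
        [q.1, q.2.1, q.2.2.1, q.2.2.2.1, q.2.2.2.2.1, q.2.2.2.2.2].Nodup},
      {p : W → E | gpG q.1 p ≠ 0}) := by
    refine Dense.inter_of_isOpen_left (dense_iInter_of_isOpen (fun q => (hF q).1)
      fun q => (hF q).2) (dense_iInter_of_isOpen (fun q => (hG q).1) fun q => (hG q).2) ?_
    exact isOpen_iInter_of_finite fun q => (hF q).1
  have h1 := mem_closure_iff_frequently.1 (hD F0)
  refine h1.mono ?_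
  rintro p ⟨hp1, hp2⟩
  simp only [Set.mem_iInter, Set.mem_ofPred_eq] at hp1 hp2
  refine ⟨fun a b c hab hac hbc => hp1 ⟨(a, b, c), hab, hac, hbc⟩,
    fun a a' b b' c c' hn => hp2 ⟨(a, a', b, b', c, c'), hn⟩⟩

end Pool.Agent.Lib.MP_ca0971_gt.OT
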