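import Pool.Agent.Lib.MP_ca0971_gt.OT.Chn.Main
import Pool.Agent.Lib.MP_ca0971_gt.OT.Lnk.Zero
import Pool.Agent.Lib.MP_ca0971_gt.OT.Lnk.Shift
import Pool.Agent.Lib.MP_ca0971_gt.OT.Fr.Bound

/-!
# Project OT: the PL part
-/

set_option autoImplicit false

namespace Pool.Agent.Lib.MP_ca0971_gt.OT

open Finset Filter Topology

theorem pm_zip_map {α β : Type} (f : α → β) (l : List α) (k : ℕ) :
    (l.map f).zip ((l.map f).rotate k) = (l.zip (l.rotate k)).map (Prod.map f f) := by
  rw [← List.map_rotate, ← List.zip_map]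

theorem pm_val_rot {m : ℕ} (i : Fin m) : (finRotate m i).val = (i.val + 1) % m := by
  obtain _ | m := m
  · exact i.elim0
  · rw [finRotate_apply, Fin.val_add, Fin.val_one', Nat.add_mod_mod]

theorem pm_zip_rot {α : Type} (l : List α) :
    l.zip (l.rotate 1) = List.ofFn fun i : Fin l.length => (l.get i, l.get (finRotate l.length i)) := by
  refine List.ext_getElem (by simp) fun i h1 h2 => ?_
  have hi : i < l.length := by simpa using h1
  rw [List.getElem_zip, List.getElem_ofFn, List.getElem_rotate]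
  simp only [List.get_eq_getElem]
  congr 2
  rw [pm_val_rot]

theorem pm_sh_eq (τ : ℝ) (x : E) : sh τ x = ((τ : ℂ) * Complex.I, (0 : ℝ)) + x := by
  unfold sh
  rw [Prod.ext_iff]
  constructor
  · show x.1 + _ = _ + x.1
    ring
  · show x.2 = 0 + x.2
    ring

theorem pm_sh_seg (τ : ℝ) (a b : E) : segment ℝ (sh τ a) (sh τ b) = sh τ '' segment ℝ a b := by
  have h : (sh τ : E → E) = fun x => ((τ : ℂ) * Complex.I, (0 : ℝ)) + x := funext (pm_sh_eq τ)
  rw [h]
  exact (segment_translate_image ℝ _ a b).symm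

/-- polyL of the shifted list. -/
theorem polyL_sh (τ : ℝ) (l : List E) : polyL (l.map (sh τ)) = shf τ (polyL l) := by
  ext x
  unfold polyL shf
  rw [pm_zip_map]
  constructor
  · rintro ⟨e, he, hx⟩
    obtain ⟨f, hf, rfl⟩ := List.mem_map.1 he
    have hx' : x ∈ segment ℝ (sh τ f.1) (sh τ f.2) := hx
    rw [pm_sh_seg] at hx'
    obtain ⟨y, hy, rfl⟩ := hx'
    exact ⟨y, ⟨f, hf, hy⟩, rfl⟩
  · rintro ⟨y, ⟨f, hf, hy⟩, rfl⟩
    refine ⟨Prod.map (sh τ) (sh τ) f, List.mem_map.2 ⟨f, hf, rfl⟩, ?_⟩
    show sh τ y ∈ segment ℝ (sh τ f.1) (sh τ f.2)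
    rw [pm_sh_seg]
    exact ⟨y, hy, rfl⟩

/-- The two forms of the linking number. -/
theorem lkO_eq_lk2 (l : List E) (τ : ℝ) :
    lkO (l.map (sh τ)) l = lk2 (finRotate l.length) (fun i => l.get i) τ := by
  unfold lkO lk2
  rw [pm_zip_map, pm_zip_rot, List.map_ofFn, List.map_ofFn, List.sum_ofFn]
  refine Finset.sum_congr rfl fun i _ => ?_
  show (List.map (fun e : E × E => crS (sh τ (l.get i)) (sh τ (l.get (finRotate l.length i)))
    e.1 e.2) (List.ofFn fun i : Fin l.length => (l.get i, l.get (finRotate l.length i)))).sum = _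
  rw [List.map_ofFn, List.sum_ofFn]
  rfl

/-- Only finitely many τ are bad: dt (F c - F b) (a + τ I - F b) = const + τ re (F c - F b), and
dt (a' - a) (x - a - τ I) = const - τ re (a' - a). -/
theorem genT_ex {W : Type} [Fintype W] {F : W → E} (hv : ∀ a b : W, a ≠ b → (F a).1.re ≠ (F b).1.re)
    {l : List W} (hl : l.Nodup) (h3 : 3 ≤ l.length) {τ0 : ℝ} (h0 : 0 < τ0) :
    ∃ τ, 0 < τ ∧ τ < τ0 ∧ GenT F ((l.map F).map (sh τ)) := by
  let g : W × W × W → ℝ := fun w =>
    dt ((F w.2.2).1 - (F w.2.1).1) ((F w.1).1 - (F w.2.1).1) / ((F w.2.2).1 - (F w.2.1).1).re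
  have hfin : ((Set.range g) ∪ Set.range fun w => - g w).Finite :=
    (Set.finite_range _).union (Set.finite_range _)
  obtain ⟨τ, hτ, hτn⟩ := (Set.Ioo_infinite h0).exists_notMem_finite hfin
  rw [Set.mem_union, not_or] at hτn
  refine ⟨τ, hτ.1, hτ.2, ?_, ?_⟩
  · intro a ha b c hbc h
    rw [List.map_map] at ha
    obtain ⟨w, -, rfl⟩ := List.mem_map.1 ha
    apply hτn.2
    refine ⟨(w, b, c), ?_⟩
    have hre : ((F c).1 - (F b).1).re ≠ 0 := by
      rw [Complex.sub_re]
      exact sub_ne_zero.2 (hv c b hbc.symm)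
    show -(dt ((F c).1 - (F b).1) ((F w).1 - (F b).1) / ((F c).1 - (F b).1).re) = τ
    have h' : dt ((F c).1 - (F b).1) (((F w).1 + (τ : ℂ) * Complex.I) - (F b).1) = 0 := h
    have e : dt ((F c).1 - (F b).1) (((F w).1 + (τ : ℂ) * Complex.I) - (F b).1) =
        dt ((F c).1 - (F b).1) ((F w).1 - (F b).1) + τ * ((F c).1 - (F b).1).re := by
      unfold dt
      simp only [Complex.sub_re, Complex.sub_im, Complex.add_re, Complex.add_im, Complex.mul_re,
        Complex.mul_im, Complex.ofReal_re, Complex.ofReal_im, Complex.I_re, Complex.I_im]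
      ring
    rw [e] at h'
    rw [neg_eq_iff_eq_neg, div_eq_iff hre]
    linarith
  · intro f hf x h
    rw [List.map_map, pm_zip_map, pm_zip_rot, List.map_ofFn] at hf
    obtain ⟨i, rfl⟩ := List.mem_ofFn.1 hf
    apply hτn.1
    have hne : l.get (finRotate l.length i) ≠ l.get i := by
      intro he
      have h1 := congrArg Fin.val (List.nodup_iff_injective_get.1 hl he)
      rw [pm_val_rot] at h1
      have h2 := i.isLt
      rcases Nat.lt_or_ge (i.val + 1) l.length with h3' | h3'
      · rw [Nat.mod_eq_of_lt h3'] at h1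
        omega
      · have h4 : i.val + 1 = l.length := by omega
        rw [h4, Nat.mod_self] at h1
        omega
    have hre : ((F (l.get (finRotate l.length i))).1 - (F (l.get i)).1).re ≠ 0 := by
      rw [Complex.sub_re]
      exact sub_ne_zero.2 (hv _ _ hne)
    refine ⟨(x, l.get i, l.get (finRotate l.length i)), ?_⟩
    show dt ((F (l.get (finRotate l.length i))).1 - (F (l.get i)).1) ((F x).1 - (F (l.get i)).1) /
      ((F (l.get (finRotate l.length i))).1 - (F (l.get i)).1).re = τ
    have h' : dt (((F (l.get (finRotate l.length i))).1 + (τ : ℂ) * Complex.I) -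
        ((F (l.get i)).1 + (τ : ℂ) * Complex.I))
        ((F x).1 - ((F (l.get i)).1 + (τ : ℂ) * Complex.I)) = 0 := h
    have e : dt (((F (l.get (finRotate l.length i))).1 + (τ : ℂ) * Complex.I) -
        ((F (l.get i)).1 + (τ : ℂ) * Complex.I))
        ((F x).1 - ((F (l.get i)).1 + (τ : ℂ) * Complex.I)) =
        dt ((F (l.get (finRotate l.length i))).1 - (F (l.get i)).1) ((F x).1 - (F (l.get i)).1) -
        τ * ((F (l.get (finRotate l.length i))).1 - (F (l.get i)).1).re := by
      unfold dt
      simp only [Complex.sub_re, Complex.sub_im, Complex.add_re, Complex.add_im, Complex.mul_re,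
        Complex.mul_im, Complex.ofReal_re, Complex.ofReal_im, Complex.I_re, Complex.I_im]
      ring
    rw [e] at h'
    rw [div_eq_iff hre]
    linarith

/-- PL part. -/
theorem pl_main {W : Type} [Fintype W] [DecidableEq W] (F : W → E) (l : List W) (h3 : 3 ≤ l.length)
    (hGP : GP F) (hv : ∀ a b : W, a ≠ b → (F a).1.re ≠ (F b).1.re) (hF : FrtL (l.map F))
    (h : ∃ τ0 : ℝ, 0 < τ0 ∧ ∀ τ, 0 < τ → τ < τ0 → Chain F (shf τ (polyL (l.map F))) l) : False := by
  obtain ⟨τ0, h0, hch⟩ := h
  obtain ⟨hn, -, hs, hZ⟩ := chain_Zh hGP (hch (τ0 / 2) (by linarith) (by linarith))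
  have hG : Gen (finRotate (l.map F).length) (fun i => (l.map F).get i) := by
    have h3' : 3 ≤ (l.map F).length := by rw [List.length_map]; exact h3
    have hval : ∀ i : Fin (l.map F).length, finRotate _ i ≠ i ∧ finRotate _ (finRotate _ i) ≠ i := by
      intro i
      have h2 := i.isLt
      constructor
      · intro he
        have h1 := congrArg Fin.val he
        rw [pm_val_rot] at h1
        rcases Nat.lt_or_ge (i.val + 1) (l.map F).length with h4 | h4
        · rw [Nat.mod_eq_of_lt h4] at h1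
          omega
        · have h5 : i.val + 1 = (l.map F).length := by omega
          rw [h5, Nat.mod_self] at h1
          omega
      · intro he
        have h1 := congrArg Fin.val he
        rw [pm_val_rot, pm_val_rot] at h1
        rcases Nat.lt_or_ge (i.val + 1) (l.map F).length with h4 | h4
        · rw [Nat.mod_eq_of_lt h4] at h1
          rcases Nat.lt_or_ge (i.val + 1 + 1) (l.map F).length with h6 | h6
          · rw [Nat.mod_eq_of_lt h6] at h1
            omega
          · have h5 : i.val + 1 + 1 = (l.map F).length := by omega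
            rw [h5, Nat.mod_self] at h1
            omega
        · have h5 : i.val + 1 = (l.map F).length := by omega
          rw [h5, Nat.mod_self, Nat.zero_add, Nat.mod_eq_of_lt (by omega)] at h1
          omega
    refine gen_of_gp (fun i => (hval i).1) (fun i => (hval i).2) ?_ (hgt_of_dis hs)
    have hlen : (l.map F).length = l.length := List.length_map _
    have hfun : (fun i => (l.map F).get i) = fun i => F (l.get (Fin.cast hlen i)) := by
      funext i
      simp only [List.get_eq_getElem, List.getElem_map, Fin.val_cast]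
    rw [hfun]
    exact GP.comp_inj hGP (fun i => l.get (Fin.cast hlen i)) fun i j hij =>
      Fin.cast_injective hlen (List.nodup_iff_injective_get.1 hn hij)
  obtain ⟨τ1, h1, hlk⟩ := lk2_eq hG hF
  obtain ⟨τ, ht0, ht1, hT⟩ := genT_ex hv hn h3 (lt_min h0 h1)
  have hc := hch τ ht0 (lt_of_lt_of_le ht1 (min_le_left _ _))
  rw [← polyL_sh] at hc
  have hzero := (lkO_chain hGP hT hc).2.2
  rw [lkO_eq_lk2, hlk τ ht0 (lt_of_lt_of_le ht1 (min_le_right _ _))] at hzero
  have hw := w_le hG hF hZ
  linarith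

end Pool.Agent.Lib.MP_ca0971_gt.OT
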